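import Pool.Agent.P.MP_05ee19_an.Main

/-!
A nonconstant quasiregular map of a domain in `ℝⁿ` preserves the Nagata dimension of every
compactly contained set.
-/

open Pool.Agent.P.MP_05ee19_an

theorem Pool.Agent.Results.MP_05ee19_an.NagataQR.result :
    ∀ (n : ℕ), 2 ≤ n → ∀ (Ω : Set (E n)), IsOpen Ω → IsConnected Ω →
      ∀ f : E n → E n, IsQuasiregular Ω f → (∃ x ∈ Ω, ∃ y ∈ Ω, f x ≠ f y) →
      ∀ A : Set (E n), IsCompact (closure A) → closure A ⊆ Ω →
        nagataDim A = nagataDim (f '' A) :=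
  main
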